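import Pool.Agent.Q82.TQ.Eff2

set_option autoImplicit false

/-!
# Effective abundance for pairs on quotients of complex tori, with an exponent depending on the dimension

Let `X = V / Γ` be the quotient of a complex torus of dimension `d` by any finite group, which may
contain reflections, so that `V → X` may be ramified along divisors and `K_X` may be negative. Let `Δ`
be an effective divisor on `X` and `q ≥ 0` such that `q (K_X + Δ)` is integral and Cartier, with no bound
on `q`, on the coefficients of `Δ` or on their denominators. If `K_X + Δ` is nef, then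
`m q (K_X + Δ)` is globally generated, where `m` depends only on `d`.

The proof. Let `H` be the Chern form of `L = O_X(q (K_X + Δ))` and `N` the order of the group of the linear
parts of the elements of `Γ`; it is bounded in terms of `d` by Minkowski's lemma.
* Theta functions and translations by fractions of the fixed points show that `L ^ (4 N ^ 3) ⊗ P` is
  globally generated for some flat line bundle `P` on `X`.
* The restriction of `L` to the torus with tangent space the kernel `C` of `H` is torsion of order
  dividing `N`, because `L` has a meromorphic section with poles along the branch divisor only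
  (this is the argument of the starting library for semiampleness).
* So `P` is trivial there, and `P ^ (N ^ 2)` is given by an invariant real functional which vanishes on
  `C`. It is of the form `Im H(·, a)` for a vector `a` invariant under the linear parts, and the
  translation by `a`, an automorphism of `X`, carries `(L ^ (4 N ^ 3) ⊗ P) ^ (N ^ 2)` into
  `L ^ (4 N ^ 5)`.

`latt`, `IsTorusQuotient` and `LineBundle` are defined in `Pool.Agent.W594.SYZ.Defs2`; `IsChernForm`
and `IsNefForm` in `Pool.Agent.W594.SYZ.TQDefs`; `IsPseudoEffective` in `Pool.Agent.TH128.SYZ.PsefDefs`;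
`OnMirror`, `ramIndex`, `IsRamification` and `IsLogPluricanonical` in `Pool.Agent.TH735.AQ.MirDefs`;
`IsGloballyGenerated` in `Pool.Agent.Q82.TQ.Gen`.
-/

namespace Pool.Agent.Results.MP_e23cd6_ag.EffectiveTorusQuotientPairs

open Pool.Agent.W594.SYZ2 Pool.Agent.W594.SYZ2.TQ Pool.Agent.TH735.AQ Pool.Agent.TH128.SYZ
open Pool.Agent.Q82.TQ

universe u

/-- For each `d` there is `m ≥ 1` such that for all torus quotients `X = V / Γ` of dimension `d`, all
effective divisors `Δ` on `X` and all `q` such that `L = O_X(q (K_X + Δ))` is a line bundle: `L` is nef if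
and only if it is pseudo-effective, if and only if `L ^ m` is globally generated. Here `ρ` defines the
ramification divisor of `V → X`, `β` is an entire function, not identically zero, which defines the
pullback of `q Δ`, and `H` is the Chern form of `L`. -/
theorem result (d : ℕ) : ∃ m : ℕ, 0 < m ∧
    ∀ {V : Type u} [NormedAddCommGroup V] [NormedSpace ℂ V] [FiniteDimensional ℂ V],
      Module.finrank ℂ V = d → ∀ (Γ : Subgroup (V ≃ᵃ[ℂ] V)), IsTorusQuotient Γ →
      ∀ (ρ β : V → ℂ) (q : ℕ) (L : LineBundle Γ) (H : V → V → ℂ), IsRamification Γ ρ →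
        Differentiable ℂ β → (∃ v, β v ≠ 0) → IsLogPluricanonical L q ρ β → IsChernForm L H →
        (IsNefForm H ↔ IsPseudoEffective L) ∧
        (IsNefForm H ↔ IsGloballyGenerated (L.pow m)) := by
  refine ⟨4 * (Nat.factorial (3 ^ ((2 * d) ^ 2))) ^ 5, by positivity, ?_⟩
  intro V _ _ _ hd Γ hΓ ρ β q L H hρ hβ hβ0 hL hc
  have hdvd : 4 * Nat.card (Lin Γ) ^ 5 ∣ 4 * (Nat.factorial (3 ^ ((2 * d) ^ 2))) ^ 5 := by
    refine mul_dvd_mul_left 4 (pow_dvd_pow_of_dvd ?_ 5)
    have h1 := card_le hΓ
    rw [hd] at h1
    exact Nat.dvd_factorial (Pool.Agent.Y167.card_pos hΓ) h1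
  exact ⟨(psef_iff_nef hΓ hc).symm, ⟨fun hn => gg_of_dvd (effective_log hΓ hc hρ hβ hβ0 hL hn) hdvd,
    fun hg => nef_of_gg hΓ hc (by positivity) hg⟩⟩

end Pool.Agent.Results.MP_e23cd6_ag.EffectiveTorusQuotientPairs
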