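import Pool.Agent.Y174.OB.O10

/-!
MP_e23cd6_ag, Q1: abundance for pairs of any Kodaira dimension for which the symmetric differentials of
an orbifold divisor bounded by the boundary have no common zeros over a general point of the general
fibre of the Iitaka fibration.
-/

set_option autoImplicit false

open Pool.Agent.W619.TW Pool.Agent.W619.Y Pool.Agent.W619.PQ Pool.Agent.Y174 FF

namespace Pool.Agent.Results.MP_e23cd6_ag.OrbifoldSymDifferentials

/-- Let `X → B` be an algebraic fibre space, `X` and `B` projective varieties with function fields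
`K` and `L`, `dim B = d`, `dim X = d + (r + 1)`, and `Δ` a divisor with real coefficients over `X`,
with the multiplicities `δ v`, for instance with `X → B` the Iitaka fibration of `K_X + Δ`. Let `F` be
the function field of the geometric generic fibre, over the algebraic closure `Λ` of `L`.

1. If the symmetric differentials of positive degrees of `(X, Δ)` have no common zeros at the geometric
generic point, then so do those of the geometric generic fibre with the restriction of `Δ`.

2. Let `Δ_F` be the restriction of `Δ` to the geometric generic fibre, and `Δ_0 ≤ Δ_F` an orbifold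
divisor on it (multiplicities `1` or `1 - 1 / q`). If the orbifold symmetric differentials of positive
degrees of `Δ_0` have no common zeros at the geometric generic point, and `κ (K_F + Δ_F) ≤ 0`, then:
there is a finite Galois cover, with function field `M`, on which there is a basis of 1-forms of the
orbifold `Δ_0`; its pull-back is a basis of logarithmic 1-forms with poles only over the components
of `Δ_0` with coefficient `1`; the cover is of maximal Albanese dimension if `Δ_0` has
none (the klt case); `κ (K_F + Δ_F) = 0`; the Kodaira dimension of the pair does not change under the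
pull-back to the cover, and `ν (K_X + Δ) ≤ dim B + ν (K_M + Δ_M)`. -/
theorem result {L K Λ F : Type} [Field L] [Field K] [Field Λ] [Field F]
    -- the function fields of `B` and `X`
    [Algebra ℂ L] [Algebra ℂ K] [Algebra L K] [IsScalarTower ℂ L K]
    [Algebra.EssFiniteType ℂ L] [Algebra.EssFiniteType ℂ K] {d r : ℕ}
    (hB : Algebra.trdeg ℂ L = d) (hX : Algebra.trdeg ℂ K = (d + (r + 1) : ℕ))
    (hLK : ∀ x : K, IsAlgebraic L x → x ∈ Set.range (algebraMap L K))
    -- the geometric generic fibre
    [Algebra L Λ] [IsAlgClosure L Λ] [Algebra Λ F] [Algebra K F] [Algebra L F]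
    [IsScalarTower L Λ F] [IsScalarTower L K F] [Algebra ℂ Λ] [Algebra ℂ F]
    [IsScalarTower ℂ L Λ] [IsScalarTower ℂ Λ F] [IsScalarTower ℂ K F]
    (hF : IntermediateField.adjoin Λ (Set.range (algebraMap K F)) = ⊤)
    -- the boundary
    {δ : Place ℂ K → ℝ} {δF : Place Λ F → ℝ} (hδF : IsPullFib δ δF) :
    ((∀ v, δ v ≤ 1) → NoBaseOrb ℂ K (d + (r + 1)) δ → NoBaseOrb Λ F (r + 1) δF) ∧
    (∀ (G : Finset K) (_ : ∀ v : Place ℂ K, IsDivisorial v (d + (r + 1)) →
        ∃ g ∈ G, g ≠ 0 ∧ δ v ≤ (v.ord g : ℝ))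
      (δ0 : Place Λ F → ℝ) (_ : IsOrb δ0) (_ : ∀ w, δ0 w ≤ δF w)
      (_ : ¬ PairKod Λ F (r + 1) δF 1) (_ : NoBaseOrb Λ F (r + 1) δ0),
      ∃ M : IntermediateField F (AlgebraicClosure F), FiniteDimensional F M ∧ IsGalois F M ∧
        (∃ (ω : Fin (r + 1) → (Derivation Λ F F →ₗ[F] M)), LinearIndependent M ω ∧
          ∀ i, OrbForm (r + 1) δ0 (ω i)) ∧
        (∃ (η : Fin (r + 1) → (Derivation Λ M M →ₗ[M] M)), LinearIndependent M η ∧
          ∀ i, ∀ w : Place Λ M, IsDivisorial w (r + 1) → ∀ D : Derivation Λ M M,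
            LogFld (BdOn fun v => δ0 v = 1) w D → w.Reg (η i D)) ∧
        ((∀ v, δ0 v < 1) → MaxAlb Λ M (r + 1)) ∧
        PairKod Λ F (r + 1) δF 0 ∧
        ∀ δM : Place Λ M → ℝ, IsPull δF δM →
          (∀ a, PairKod Λ F (r + 1) δF a ↔ PairKod Λ M (r + 1) δM a) ∧
          ∀ h, PairNum Λ M (r + 1) δM h →
            PairNum Λ F (r + 1) δF h ∧ PairNum ℂ K (d + (r + 1)) δ (d + h)) := by
  have h1 : IsAlgClosed Λ := IsAlgClosure.isAlgClosed L
  have h2 : Algebra.IsAlgebraic L Λ := IsAlgClosure.isAlgebraic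
  refine ⟨fun hδ h => OB.noBase_fib ‹Algebra.EssFiniteType ℂ K› hB hX hF hδF hδ h,
    fun G hG δ0 hO hle hκ h => ?_⟩
  obtain ⟨M, h3, h4, h5, ⟨η, hη, hreg⟩, h7, h8⟩ := OB.main_base ‹Algebra.EssFiniteType ℂ L›
    ‹Algebra.EssFiniteType ℂ K› hB hX hLK hF hG hδF hO hle hκ h
  refine ⟨M, h3, h4, h5, ⟨η, hη, hreg⟩, fun hlt => ⟨η, hη, fun i w hw D hD =>
    hreg i w hw D ⟨fun _ => hD, fun h => ?_⟩⟩, h7, h8⟩
  obtain ⟨v, e, -, h0⟩ := h
  exact absurd h0 (hlt v).ne

end Pool.Agent.Results.MP_e23cd6_ag.OrbifoldSymDifferentials
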