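import Pool.Agent.Q298.EF.CycGeo

/-!
# Abundance for pairs fibred in products of superelliptic curves over the image of a powerful linear
system

Let `(X, Δ)` be a projective klt pair of dimension `d + e`, `Δ` a `ℚ`-divisor, and `|V|` a linear
system on `X` without fixed components, of dimension `n = d + k`, whose rational map `X ⇢ ℙⁿ` has an
image `Y` of dimension `d ≥ 1`; `Y` may be any nondegenerate variety of dimension `d`, for instance
rational. Suppose:

* (the members) `D i` (`i < q`) are finitely many members of `|V|`, in arbitrary position, which span
  `V`, and `V` is not the direct sum of two nonzero subspaces such that each `D i` belongs to one of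
  them; at every prime divisor `P` of `X` which is a component of some `D i`, some `D i'` has
  multiplicity at least `σ (1 - Δ_P)`, where `2 σ > R (k + 1) (k + 2)` with `R = n + 2`, or
  `R = n + 1` if there are at least `n + 3` different members;
* (the fibres) the discrepancies of `(X, Δ)` along the divisors over `X` which dominate `Y` are not
  negative: the general fibres have canonical singularities and `Δ` is vertical; and the geometric
  generic fibre is a product of superelliptic curves: for some variety `Y''` with a generically finite
  map to `Y`, ramified anywhere, the main component of the fibre product `X ×_Y Y''` (its function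
  field is `K' = K(α)`, where `α` is algebraic over the function field of `Y`) is birational to the
  fibre product over `Y'` of `e` cyclic covers `z_j ^ m_j = G_j(x_j)` of `Y' × ℙ¹`, where `Y'` is
  generically finite over `Y''` (its function field is the algebraic closure of the one of `Y` in
  `K'`) and the `G_j` are arbitrary nonzero polynomials over it, `m_j ≥ 1`.

Let `W j` be the sum over all roots `b` of `G j` in an algebraic closure, of multiplicity `μ b`, of
`1 - gcd (m j, μ b) / m j`, plus `1 - gcd (m j, deg G j) / m j`; if `C j` is the `j`-th curve, of genus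
`g j` and of degree `n j` over the line, then `2 g j - 2 = n j * (W j - 2)`. Then
`κ(K_X + Δ) = ν(K_X + Δ)`: both are `-∞` if `W j < 2` (`g j = 0`) for some `j`, and otherwise both are
equal to `d` plus the number of the `j` with `W j > 2` (`g j ≥ 2`). So if `K_X + Δ` is nef then it is
semiample (Kawamata).

For `e = 1` the condition on the fibres is that `X ⇢ Y` is a fibration whose general fibres are
geometrically superelliptic curves of any genus, for instance hyperelliptic curves, or any curves of
genus at most `2`; there need not be a section, and the fibration may have any singular and multiple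
fibres. In general the monodromy over `Y` may permute the factors of the fibres, which are twisted
forms of products of superelliptic curves.

The language and the definitions of `Pool.Agent.Y172` are used: `X` is given by the homogeneous
coordinates `y` of its generic point, with values in the function field `K` of `X`; the prime divisors
of `X` are places `P` of `K`, `P.ord` is the order along `P`. The linear system is given by the finite
dimensional space `V` of rational functions: if `a` is the minimum of the orders at `P` of the members
of `V` then the multiplicity of `P` in the divisor of the system which is given by `f ∈ V` is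
`P.ord f - a`. `kodairaDim` and `numericalDim` are the literal definitions of the Kodaira dimension
and of the numerical dimension of `K_X + Δ`, the latter with respect to any effective integral
divisor `A`. `acl ℂ S` is the field of the elements which are algebraic over `ℂ(S)`. (The theorem
holds for all effective `Δ`, klt or not.)

Proof: over the extension of `K'` generated by the roots of the `G_j` the products of powers of
determinants of logarithmic derivatives of the `x_j - b` are pluricanonical forms along the fibres,
regular at all divisors, vertical ones included (`Pool.Agent.Y191.cyc_low`); these extensions of `K`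
are generated by elements which are algebraic over the function field of `Y`, so they are unramified
at the horizontal divisors, and the forms descend to `X` (`Pool.Agent.Y191.push`). They are multiplied
with generalised Wronskians of the linear system (`Pool.Agent.TH585.SV.lin_fib`): this gives the lower
bound for the Kodaira dimension. The upper bounds: the sections of `m (K_X + Δ) + A` are pulled back
to `K'`, multiplied by powers of the irreducible factors of the `G_j(x_j)`, and their traces to the
function field of `Y' × (ℙ¹)^e` are polynomials of bounded degree in the `x_j` with `W j = 2`, and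
vanish if `W j < 2` for some `j` (`Pool.Agent.Q298.EF.cycp_ab`).
-/

set_option autoImplicit false

open FF Pool.Agent.W602.GT Pool.Agent.Y172 Pool.Agent.Y191 UniqueFactorizationMonoid

namespace Pool.Agent.Results.MP_e23cd6_ag.SuperellipticFibrations

section

variable {K : Type} [Field K] [Algebra ℂ K] {N : ℕ}

/-- `(X, Δ)` is a projective pair of dimension `n`: `X` is normal, with generic point `y`, and `Δ` is
an effective `ℚ`-divisor. -/
def IsPair (y : Fin (N + 1) → K) (n : ℕ) (Δ : Place ℂ K → ℚ) : Prop :=
  NormalModel y ∧ Algebra.trdeg ℂ K = n ∧ Effective y Δ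

/-- The function field of the image of the rational map which is given by the linear system `V`: the
field generated by the quotients of the members. -/
noncomputable def ImageField (V : Submodule ℂ K) : IntermediateField ℂ K :=
  IntermediateField.adjoin ℂ {y : K | ∃ f ∈ V, ∃ g ∈ V, y = f / g}

/-- `V` is the direct sum of two nonzero subspaces such that each `φ i` belongs to one of them. -/
def Splits {q : ℕ} (V : Submodule ℂ K) (φ : Fin q → K) : Prop :=
  ∃ V1 V2 : Submodule ℂ K, V1 ≠ ⊥ ∧ V2 ≠ ⊥ ∧ Disjoint V1 V2 ∧ V1 ⊔ V2 = V ∧
    ∀ i, φ i ∈ V1 ∨ φ i ∈ V2

/-- There are `r` members `φ i` of which no two are proportional. -/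
def Different (r : ℕ) {q : ℕ} (φ : Fin q → K) : Prop :=
  ∃ τ : Fin r → Fin q, ∀ i j, i ≠ j → ∀ t : ℂ, φ (τ i) ≠ t • φ (τ j)

/-- The condition on the multiplicities: if the prime divisor `P` of `X` is a component of one of the
divisors `D i` (the order of `φ i` at `P` is not the minimum `a` of the orders of the members of
`V`), then some `D i` has multiplicity at least `σ (1 - Δ_P)` at `P`. -/
def Multiplicities (y : Fin (N + 1) → K) (Δ : Place ℂ K → ℚ) {q : ℕ} (V : Submodule ℂ K)
    (φ : Fin q → K) (σ : ℚ) : Prop :=
  ∀ P, IsPrimeDivisor y P → ∀ a : ℤ, (∀ f ∈ V, f = 0 ∨ a ≤ P.ord f) →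
    (∃ f ∈ V, f ≠ 0 ∧ P.ord f = a) → (∃ i, P.ord (φ i) ≠ a) →
    ∃ i, σ * (1 - Δ P) ≤ ((P.ord (φ i) - a : ℤ) : ℚ)

/-- The log discrepancies of `(X, Δ)` along the divisors over `X` which dominate the variety with the
function field `L` are at least `1`. -/
def CanonicalOver (y : Fin (N + 1) → K) (n : ℕ) (Δ : Place ℂ K → ℚ) (L : IntermediateField ℂ K) :
    Prop :=
  ∀ Q : Place ℂ K, Divisorial n Q → (∀ f ∈ L, f ≠ 0 → Q.ord f = 0) → LogDisc y n Δ Q 1

end

/-- The image of the subfield `L` of `K` in the extension `K'`. -/
noncomputable def Up {K : Type} (K' : Type) [Field K] [Field K'] [Algebra ℂ K] [Algebra ℂ K']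
    [Algebra K K'] [IsScalarTower ℂ K K'] (L : IntermediateField ℂ K) : IntermediateField ℂ K' :=
  L.map (IsScalarTower.toAlgHom ℂ K K')

open Classical in
/-- The sum over the roots `b` of `G` in an algebraic closure, of multiplicity `μ b`, of
`1 - gcd (m, μ b) / m`, plus `1 - gcd (m, deg G) / m`. Here `p` is one of the different irreducible
monic factors of `G`; it occurs `(normalizedFactors G).count p` times, and has `p.natDegree` roots. -/
noncomputable def weight {F : Type} [Field F] (m : ℕ) (G : Polynomial F) : ℚ :=
  ∑ p ∈ (normalizedFactors G).toFinset,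
    (p.natDegree : ℚ) * (1 - (m.gcd ((normalizedFactors G).count p) : ℚ) / m) +
      (1 - (m.gcd G.natDegree : ℚ) / m)

/-- `K'` is the function field of the fibre product of the `e` cyclic covers
`z j ^ m j = G j (x j)` of `Y' × ℙ¹`, where the function field of `Y'` is the algebraic closure
`acl ℂ L` of `L` in `K'`: the `G j` are nonzero polynomials over it, the `x j` are a transcendence
basis of `K'` over `L`, and `K'` is generated by `acl ℂ L` and the `x j` and `z j`. -/
def FibreProduct {e : ℕ} {K' : Type} [Field K'] [Algebra ℂ K'] (L : IntermediateField ℂ K')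
    (m : Fin e → ℕ) (G : Fin e → Polynomial (acl ℂ (L : Set K'))) (x z : Fin e → K') : Prop :=
  (∀ j, 1 ≤ m j ∧ G j ≠ 0 ∧ z j ^ m j = Polynomial.aeval (x j) (G j)) ∧
    IsTranscendenceBasis L x ∧
    IntermediateField.adjoin ℂ ((acl ℂ (L : Set K') : Set K') ∪ Set.range x ∪ Set.range z) = ⊤

/-- Some extension `K' = K (α)` of `K`, `α` algebraic over the subfield `L`, is the function field of
a fibre product of `e` cyclic covers with the numbers `W j`. -/
def SuperellipticFibres {K : Type} [Field K] [Algebra ℂ K] (L : IntermediateField ℂ K) {e : ℕ}
    (W : Fin e → ℚ) : Prop :=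
  ∃ (K' : Type) (_ : Field K') (_ : Algebra ℂ K') (_ : Algebra K K') (_ : IsScalarTower ℂ K K')
    (α : K'), IsAlgebraic (Up K' L) α ∧ IntermediateField.adjoin K {α} = ⊤ ∧
    ∃ (m : Fin e → ℕ) (G : Fin e → Polynomial (acl ℂ (Up K' L : Set K'))) (x z : Fin e → K'),
      FibreProduct (Up K' L) m G x z ∧ ∀ j, weight (m j) (G j) = W j

/-- The Kodaira dimension and the numerical dimension (with respect to any effective integral divisor
`A`) of `K_X + Δ` are equal: they are `-∞` if `W j < 2` for some `j`, and otherwise equal to `d` plus
the number of the `j` with `W j > 2`. -/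
def Abundance {K : Type} [Field K] [Algebra ℂ K] {N : ℕ} (y : Fin (N + 1) → K) (n d : ℕ)
    (Δ : Place ℂ K → ℚ) {e : ℕ} (W : Fin e → ℚ) : Prop :=
  ((∃ j, W j < 2) → kodairaDim y n Δ = ⊥ ∧ ∀ A, Effective y A → numericalDim y n Δ A = ⊥) ∧
  ((∀ j, 2 ≤ W j) →
    kodairaDim y n Δ = ((d + (Finset.univ.filter fun j => 2 < W j).card : ℕ) : WithBot ℕ) ∧
    ∀ A, Effective y A → Integral y A →
      numericalDim y n Δ A = ((d + (Finset.univ.filter fun j => 2 < W j).card : ℕ) : EReal))

/-- **Abundance.** Let `(X, Δ)` be a projective pair of dimension `d + e` with generic point `y`, `V` a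
linear system of dimension `d + k` on `X` whose rational map has an image `Y` of dimension `d ≥ 1`;
`φ i` nonzero members which span `V`, such that `V` does not split into a direct sum,
`R = d + k + 2`, or `R = d + k + 1` if there are `d + k + 3` different members, and `σ` a number with
`2 σ > R (k + 1) (k + 2)` for which the condition on the multiplicities holds. Let the discrepancies of
`(X, Δ)` along the divisors over `X` which dominate `Y` be nonnegative, and let the geometric generic
fibre of `X` over `Y` be a product of superelliptic curves as in `SuperellipticFibres`. Then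
`κ(K_X + Δ) = ν(K_X + Δ)`, equal to `-∞` if `W j < 2` for some `j`, and otherwise equal to `d` plus the
number of the `j` with `W j > 2`. -/
theorem result (d e k q N : ℕ) (hd : 1 ≤ d) (K : Type) [Field K] [Algebra ℂ K]
    (y : Fin (N + 1) → K) (Δ : Place ℂ K → ℚ) (hy : IsPair y (d + e) Δ)
    (V : Submodule ℂ K) (hn : Module.finrank ℂ V = d + k + 1)
    (hV : Algebra.trdeg ℂ (ImageField V) = d)
    (φ : Fin q → K) (hφ0 : ∀ i, φ i ≠ 0) (hφ : Submodule.span ℂ (Set.range φ) = V)
    (hγ : ¬ Splits V φ)
    (R : ℕ) (hR : R = d + k + 2 ∨ (Different (d + k + 3) φ ∧ R = d + k + 1))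
    (σ : ℚ) (hσ : (R * ((k + 1) * (k + 2)) : ℚ) < 2 * σ) (h : Multiplicities y Δ V φ σ)
    (hc : CanonicalOver y (d + e) Δ (ImageField V))
    (W : Fin e → ℚ) (hW : SuperellipticFibres (ImageField V) W) :
    Abundance y (d + e) d Δ W := by
  obtain ⟨K', _, _, _, _, α, hα, hαt, m, G, x, z, ⟨hxz, hx, hgen⟩, hW⟩ := hW
  have hαK : IsAlgebraic K α := by
    have h1 : ∀ z ∈ Up K' (ImageField V), ∃ a : K, algebraMap K K' a = z := by
      intro z hz
      unfold Up at hz
      rw [IntermediateField.mem_map] at hz
      obtain ⟨a, -, ha⟩ := hz
      exact ⟨a, ha⟩
    obtain ⟨p, hp0, hp⟩ := hα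
    obtain ⟨p', hp'⟩ : ∃ p' : Polynomial K, p'.map (algebraMap K K') =
        p.map (algebraMap (Up K' (ImageField V)) K') := by
      refine (Polynomial.mem_lifts _).1 ((Polynomial.lifts_iff_coeff_lifts _).2 fun i => ?_)
      rw [Polynomial.coeff_map]
      obtain ⟨a, ha⟩ := h1 _ (p.coeff i).2
      exact ⟨a, ha⟩
    refine ⟨p', ?_, ?_⟩
    · rintro rfl
      rw [Polynomial.map_zero] at hp'
      exact hp0 ((Polynomial.map_eq_zero _).1 hp'.symm)
    · rw [← Polynomial.eval_map_algebraMap, hp', Polynomial.eval_map_algebraMap]
      exact hp
  have hfin : FiniteDimensional K K' := by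
    have h1 : FiniteDimensional K (IntermediateField.adjoin K {α}) :=
      IntermediateField.adjoin.finiteDimensional hαK.isIntegral
    rw [hαt] at h1
    exact Module.Finite.of_surjective
      (IntermediateField.topEquiv : (⊤ : IntermediateField K K') ≃ₐ[K] K').toLinearMap
      (IntermediateField.topEquiv).surjective
  have htop : ∀ z : K', ∃ p : Polynomial K, z = Polynomial.aeval α p := by
    intro z
    have h1 : z ∈ IntermediateField.adjoin K {α} := by
      rw [hαt]
      trivial
    rw [← IntermediateField.mem_toSubalgebra,
      IntermediateField.adjoin_simple_toSubalgebra_of_isAlgebraic hαK,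
      Algebra.adjoin_singleton_eq_range_aeval] at h1
    obtain ⟨p, hp⟩ := h1
    exact ⟨p, hp.symm⟩
  have hmain := Pool.Agent.Q298.EF.cycg_main hd hy.1 hy.2.1 hy.2.2 hn hV hφ0 hφ hγ hR hσ h hc
    (K' := K') (α := α) hα htop hx (fun j => (hxz j).1) (fun j => (hxz j).2.1)
    (fun j => (hxz j).2.2) hgen
  obtain rfl : (fun j => weight (m j) (G j)) = W := funext hW
  exact hmain

end Pool.Agent.Results.MP_e23cd6_ag.SuperellipticFibrations
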