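import Pool.Agent.Y174.U1

/-!
MP_e23cd6_ag, Q1: abundance for pairs `(V, Δ)` with a decomposable section of
`(Ω ^ d (log B)) ^ ⊗ m` twisted by `m (Δ - B)` and multivalued logarithmic 1-forms.

Let `V` be a projective manifold of dimension `d + r` with function field `K`, `Δ ≥ 0` a divisor with
real coefficients (over `V`: a multiplicity `δ v ≥ 0` for every prime divisor `v` over `V`), and `B` a
set of prime divisors over `V` where `Δ` has multiplicity one (for klt pairs `B` is empty). Let
`α 1, ..., α d` be rational 1-forms, independent at the generic point, and `a ≠ 0` a function such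
that `a (α 1 ∧ ... ∧ α d) ^ m` is a section of `(Ω ^ d (log B)) ^ ⊗ m (m (Δ - B))`. The forms `α i`
need not be regular and need not be closed, and the foliation `α 1 = ... = α d = 0` need not be
integrable. Let `ω i` be finitely many multivalued 1-forms, with values in a Galois extension `Ω` of
`K`, which are regular outside `B`, with at most logarithmic poles along `B` (and which are not
supposed to be closed or to be defined on a finite etale cover of an open set of `V`), and suppose
that a vector field which is killed by all `α i` and `ω j` is zero.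

Then the conjugates of the values of the `ω i` on the vector fields killed by the `α j` generate a
finite Galois extension `L` of `K`; on the cover `Z` of `V` with this function field the `α i` are
complemented to a basis by `r` regular (logarithmic) 1-forms with values in `L`;
`κ (K_V + Δ) ≥ 0`, and `κ (K_V + Δ) = κ (K_Z + Δ_Z)`, `ν (K_V + Δ) ≤ ν (K_Z + Δ_Z)` for the positive
part `Δ_Z` of `π^* (K_V + Δ) - K_Z`.
-/

set_option autoImplicit false
set_option linter.overlappingInstances false

open FF Pool.Agent.W619.PQ Pool.Agent.W619.TW Pool.Agent.Y174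

namespace Pool.Agent.Results.MP_e23cd6_ag.TensorAndMultivaluedForms

/-- Let `(V, Δ)` be a pair of dimension `d + r`, `Δ ≥ 0` with multiplicity one along the prime
divisors in `B`, with a decomposable section `a (α 1 ∧ ... ∧ α d) ^ m` of
`(Ω ^ d (log B)) ^ ⊗ m (m (Δ - B))` and multivalued 1-forms `ω i` with at most logarithmic poles
along `B`, such that only the zero vector field is killed by all `α i` and all `ω j`.
Then the conjugates of the values of the `ω i` on the vector fields killed by the `α j` generate a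
finite Galois extension `L` of `K`, and for the cover `Z` of `V` with function field `L`: there are
`r` 1-forms on `Z` with at most logarithmic poles over `B` which together with the pull-backs of the
`α i` are linearly independent; `κ (K_V + Δ) ≥ 0`; and if `Δ_Z` is the positive part of
`π^* (K_V + Δ) - K_Z`, then `κ (K_V + Δ) ≥ b` if and only if `κ (K_Z + Δ_Z) ≥ b`, and
`ν (K_Z + Δ_Z) ≤ b` implies `ν (K_V + Δ) ≤ b`. So `κ = ν` for `(Z, Δ_Z)` implies `κ = ν` for
`(V, Δ)`. -/
theorem result (d r m : ℕ) (hm : 1 ≤ m) (K Ω : Type) [Field K] [Field Ω] [Algebra ℂ K]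
    [Algebra ℂ Ω] [Algebra K Ω] [IsScalarTower ℂ K Ω] [Normal K Ω] [Algebra.EssFiniteType ℂ K]
    (hn : Algebra.trdeg ℂ K = (d + r : ℕ))
    -- the divisor `Δ` and the set `B` of prime divisors
    (δ : Place ℂ K → ℝ) (hδ : ∀ v, 0 ≤ δ v) (B : Place ℂ K → Prop) (hB : ∀ v, B v → δ v = 1)
    -- the tensor
    (α : Fin d → Derivation ℂ K K →ₗ[K] K) (hα : LinearIndependent K α) (a : K) (ha : a ≠ 0)
    (hT : TensorLog (d + r) m B δ α a)
    -- the multivalued forms
    {ι : Type} [Finite ι] (ω : ι → Derivation ℂ K K →ₗ[K] Ω) (hω : ∀ i, MultiLog (d + r) B (ω i))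
    (hker : ∀ D : Derivation ℂ K K, (∀ l, α l D = 0) → (∀ i, ω i D = 0) → D = 0) :
    ∃ L : IntermediateField K Ω, FiniteDimensional K L ∧ IsGalois K L ∧
      L = IntermediateField.adjoin K {z | ∃ (g : Ω ≃ₐ[K] Ω) (i : ι) (D : Derivation ℂ K K),
        (∀ l, α l D = 0) ∧ g (ω i D) = z} ∧
      (∃ (α' : Fin d → (Derivation ℂ L L →ₗ[L] L)) (η : Fin r → (Derivation ℂ L L →ₗ[L] L)),
        (∀ l, IsPullForm (α l) (α' l)) ∧ LinearIndependent L (Fin.append α' η) ∧
        ∀ i, ∀ w : Place ℂ L, IsDivisorial w (d + r) → ∀ D : Derivation ℂ L L,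
          LogFld (BdOn B) w D → w.Reg (η i D)) ∧
      PairKod ℂ K (d + r) δ 0 ∧ ∀ δ' : Place ℂ L → ℝ, IsPull δ δ' →
        (∀ b, PairKod ℂ K (d + r) δ b ↔ PairKod ℂ L (d + r) δ' b) ∧
        (∀ b, PairNum ℂ L (d + r) δ' b → PairNum ℂ K (d + r) δ b) ∧
        ∀ b, PairKod ℂ L (d + r) δ' b → PairNum ℂ L (d + r) δ' b →
          PairKod ℂ K (d + r) δ b ∧ PairNum ℂ K (d + r) δ b := by
  obtain ⟨L, h1, h2, h3, h4, h5, h6⟩ := main_L2adj ‹_› hn hm B δ hδ hB α hα a ha hT ω hω hker
  exact ⟨L, h1, h2, h3.symm, h4, h5, fun δ' hδ' => ⟨(h6 δ' hδ').1, (h6 δ' hδ').2,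
    fun b h7 h8 => ⟨((h6 δ' hδ').1 b).2 h7, (h6 δ' hδ').2 b h8⟩⟩⟩

end Pool.Agent.Results.MP_e23cd6_ag.TensorAndMultivaluedForms
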